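import Pool.Agent.Y228.HX.Stm

/-!
# Products of recurrences

Job HX-ANN of helper228, proved by helper434.
-/

set_option autoImplicit false

namespace Pool.Agent.Y434.HX

open Pool.Agent.Y228.HX Finset

/-- the coefficients of the product of two recurrences -/
noncomputable def conv (K K' : ℕ) (d d' : ℕ → Polynomial ℂ) (k : ℕ) : Polynomial ℂ :=
  ∑ x ∈ (range (K + 1) ×ˢ range (K' + 1)).filter (fun x => x.1 + x.2 = k), d x.1 * d' x.2

theorem coe_sum {ι : Type} (s : Finset ι) (f : ι → Polynomial ℂ) :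
    ((∑ i ∈ s, f i : Polynomial ℂ) : PowerSeries ℂ) = ∑ i ∈ s, (f i : PowerSeries ℂ) :=
  map_sum Polynomial.coeToPowerSeries.ringHom f s

theorem conv_zero (K K' : ℕ) (d d' : ℕ → Polynomial ℂ) : conv K K' d d' 0 = d 0 * d' 0 := by
  rw [conv]
  have h : (range (K + 1) ×ˢ range (K' + 1)).filter (fun x => x.1 + x.2 = 0) = {(0, 0)} := by
    ext ⟨a, b⟩
    simp only [mem_filter, mem_product, mem_range, mem_singleton, Prod.mk.injEq]
    constructor
    · rintro ⟨_, h⟩
      omega
    · rintro ⟨rfl, rfl⟩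
      omega
  rw [h, sum_singleton]

theorem conv_sum (K K' : ℕ) (d d' : ℕ → Polynomial ℂ) (Y : ℕ → PowerSeries ℂ) (m : ℕ) :
    ∑ k ∈ range (K + K' + 1), (conv K K' d d' k : PowerSeries ℂ) * Y (m + k) =
      ∑ a ∈ range (K + 1), ∑ b ∈ range (K' + 1),
        (d a : PowerSeries ℂ) * (d' b : PowerSeries ℂ) * Y (m + a + b) := by
  rw [← sum_product' (range (K + 1)) (range (K' + 1))
    (fun a b => (d a : PowerSeries ℂ) * (d' b : PowerSeries ℂ) * Y (m + a + b))]
  rw [← sum_fiberwise_of_maps_to (s := range (K + 1) ×ˢ range (K' + 1))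
    (t := range (K + K' + 1)) (g := fun x => x.1 + x.2)]
  · apply sum_congr rfl
    intro k _
    rw [conv, coe_sum, sum_mul]
    apply sum_congr rfl
    rintro ⟨a, b⟩ hx
    simp only [mem_filter] at hx
    rw [← hx.2, Polynomial.coe_mul, add_assoc]
  · rintro ⟨a, b⟩ hx
    simp only [mem_product, mem_range] at hx
    rw [mem_range]
    show a + b < K + K' + 1
    omega

theorem t_ANN : S_ANN := by
  refine ⟨?_, ?_⟩
  · rintro Z Z' ⟨K, d, hd, h⟩ ⟨K', d', hd', h'⟩
    refine ⟨K + K', conv K K' d d', ?_, ?_⟩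
    · intro T0 hT
      rw [conv_zero, Polynomial.eval_mul]
      exact mul_ne_zero (hd T0 hT) (hd' T0 hT)
    · intro m
      rw [conv_sum K K' d d' (fun m => Z m + Z' m) m]
      have e1 : ∑ a ∈ range (K + 1), ∑ b ∈ range (K' + 1),
          (d a : PowerSeries ℂ) * (d' b : PowerSeries ℂ) * Z (m + a + b) = 0 := by
        rw [sum_comm]
        apply sum_eq_zero
        intro b _
        have h1 := h (m + b)
        rw [← mul_zero (d' b : PowerSeries ℂ), ← h1, mul_sum]
        apply sum_congr rfl
        intro a _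
        rw [add_right_comm m a b]
        ring
      have e2 : ∑ a ∈ range (K + 1), ∑ b ∈ range (K' + 1),
          (d a : PowerSeries ℂ) * (d' b : PowerSeries ℂ) * Z' (m + a + b) = 0 := by
        apply sum_eq_zero
        intro a _
        have h1 := h' (m + a)
        rw [← mul_zero (d a : PowerSeries ℂ), ← h1, mul_sum]
        apply sum_congr rfl
        intro b _
        ring
      simp only [mul_add, sum_add_distrib]
      rw [e1, e2, add_zero]
  · rintro Z c ⟨K, d, hd, h⟩
    refine ⟨K, d, hd, ?_⟩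
    intro m
    rw [← mul_zero c, ← h m, mul_sum]
    apply sum_congr rfl
    intro k _
    ring

end Pool.Agent.Y434.HX
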